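import Pool.Agent.K3h84.PC.DS

/-!
# The discrete part of Montgomery's function has density at most `26/27`

The strong pair correlation conjecture says that `F(α, T) = 1 + o(1)` for `1 ≤ α ≤ A`.  In particular a
limit of the measures `F(α, T) dα` has no point mass except at `0`.  Assume the Riemann hypothesis.  The
Fejér means `ℓ⁻¹ ∫ (1 - |α| / ℓ)₊ F(α, T) dα` are at least `1 + o(1)`, and the known bounds for the point
masses allow that the measure is carried by a discrete set: the masses in an interval of length less than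
`1` have sum at most `1 + o(1)`.  We show that a positive proportion of the measure is not carried by
short intervals:

* For large `ℓ` and every `n` the Fejér mean over the union of any `n` intervals of a sufficiently small
  length is at most `26/27 + ε`.
* The integral of `F(α, T)` over the rest of `[-ℓ, ℓ]` is at least `(1/27 - ε) ℓ`.

In other words, in every limit of the measures `F(α, T) dα` the discrete part has density at most `26/27`
and the continuous part has positive lower density.  (Under the Alternative Hypothesis both densities are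
`1/2`; under the strong pair correlation conjecture they are `0` and `1`.)

Proof.  Let `θ₁, …, θ_n` be the points.  By the pigeonhole principle there is a large set `S` of integers
such that the numbers `(r - r') θ_j` with `r, r' ∈ S` are close to integers.  The function
`D(α) = |#S⁻¹ ∑_{r ∈ S} e(r α)|²` is close to `1` near the points `θ_j`, while `∫_{-1}^1 D` is small, so
that by Montgomery's theorem the measure `D F dα` is nearly a point mass `1` on `[-1, 1]`.  For an
integrable function `ψ` with nonnegative Fourier transform `∫ ψ F ≥ 0` and `∫ ψ D F ≥ 0`.  This is applied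
to a combination of the tents of width `1` at the points of `ℤ / 3` (for `D F`) and to the tent of width
`2 / 3` at `0` minus its translates by `± 1` (for `F`); the second function bounds `∫ (5/3 - α) F` over
`[1, 5/3]`, since `F = α` on `[1/3, 1]`.
-/

set_option autoImplicit false

open Filter MeasureTheory

namespace Pool.Agent.Results.MP_00e05b_nt.DiscretePart

/-- the nontrivial zeros of `ζ` with ordinate in `(0, T]` -/
def zeros (T : ℝ) : Set ℂ :=
  {s : ℂ | 0 < s.re ∧ s.re < 1 ∧ 0 < s.im ∧ s.im ≤ T ∧ riemannZeta s = 0}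

/-- the multiplicity of `s` as a zero of `ζ` -/
noncomputable def mult (s : ℂ) : ℕ := analyticOrderNatAt riemannZeta s

/-- Montgomery's function `F(α, T)`:
`((T/2π) log T)⁻¹ ∑_γ ∑_γ' T ^ (iα(γ - γ')) w(γ - γ')`, `w(u) = 4 / (4 + u²)`, over the zeros with
ordinates in `(0, T]`, counted with multiplicity -/
noncomputable def F (α T : ℝ) : ℂ :=
  ((T / (2 * Real.pi) * Real.log T : ℝ) : ℂ)⁻¹ *
    ∑ᶠ s ∈ zeros T, ∑ᶠ s' ∈ zeros T, (mult s : ℂ) * (mult s' : ℂ) *
      ((T : ℂ) ^ (Complex.I * α * (s.im - s'.im)) * (4 / (4 + (s.im - s'.im) ^ 2)))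

/-- the Fejér weight `ℓ⁻¹ (1 - |α| / ℓ)₊` -/
noncomputable def weight (ℓ α : ℝ) : ℝ := max 0 (1 - |α| / ℓ) / ℓ

/-- the union of the intervals `(θ - h, θ + h)`, `θ ∈ A` -/
def near (A : Finset ℝ) (h : ℝ) : Set ℝ := {α | ∃ θ ∈ A, |α - θ| < h}

/-- the points of `[-ℓ, ℓ]` at distance at least `h` from `A` -/
def away (A : Finset ℝ) (h ℓ : ℝ) : Set ℝ := {α | |α| ≤ ℓ ∧ ∀ θ ∈ A, h ≤ |α - θ|}

open Pool.Agent.K3h84.PC Pool.Agent.Y749.Rig

lemma F_eq {T : ℝ} (hT : 10 ≤ T) (α : ℝ) : F α T = (Fr T α : ℂ) :=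
  Pool.Agent.Y749.Rig.P.F_eq hT α

lemma F_re {T : ℝ} (hT : 10 ≤ T) (α : ℝ) : (F α T).re = Fr T α := by
  rw [F_eq hT, Complex.ofReal_re]

/-- **The discrete part of Montgomery's function.**  Assume the Riemann hypothesis; `F` is real and
nonnegative for `T ≥ 10`.  The Fejér means of `F` are at least `1 + o(1)`.  For every `ε > 0` and all
large `ℓ`, for every `n` there is `h > 0` such that for large `T` and all sets `A` of at most `n` real
numbers the Fejér mean over the `h`-neighbourhood of `A` is at most `26/27 + ε`, and the integral of `F`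
over the rest of `[-ℓ, ℓ]` is at least `(1/27 - ε) ℓ`. -/
theorem result (hRH : RiemannHypothesis) :
    (∀ T : ℝ, 10 ≤ T → ∀ α : ℝ, (F α T).im = 0 ∧ 0 ≤ (F α T).re) ∧
    (∀ ℓ ε : ℝ, 0 < ℓ → 0 < ε → ∃ T₀ : ℝ, ∀ T : ℝ, T₀ ≤ T →
      1 - ε ≤ ∫ α, weight ℓ α * (F α T).re) ∧
    ∀ ε : ℝ, 0 < ε → ∃ ℓ₀ : ℝ, 0 < ℓ₀ ∧ ∀ ℓ : ℝ, ℓ₀ ≤ ℓ → ∀ n : ℕ, ∃ h : ℝ, 0 < h ∧ ∃ T₀ : ℝ,
      ∀ T : ℝ, T₀ ≤ T → ∀ A : Finset ℝ, A.card ≤ n →
        (∫ α in near A h, weight ℓ α * (F α T).re ≤ 26 / 27 + ε) ∧
        (1 / 27 - ε) * ℓ ≤ ∫ α in away A h ℓ, (F α T).re := by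
  refine ⟨fun T hT α => ?_, fun ℓ ε hℓ hε => ?_, fun ε hε => ?_⟩
  · rw [F_eq hT, Complex.ofReal_im, Complex.ofReal_re]
    exact ⟨rfl, Fr_nonneg hT α⟩
  · obtain ⟨T₀, hT₀⟩ := ((diag_low hℓ hε).and (eventually_ge_atTop 10)).exists_forall_of_atTop
    refine ⟨T₀, fun T hT => ?_⟩
    obtain ⟨h1, hT10⟩ := hT₀ T hT
    simp_rw [F_re hT10]
    exact h1
  · obtain ⟨ℓ₀, hℓ₀, H⟩ := rest hRH hε
    refine ⟨ℓ₀, by linarith, fun ℓ hℓ n => ?_⟩
    obtain ⟨h, hh, hev⟩ := H ℓ hℓ n
    obtain ⟨T₀, hT₀⟩ := (hev.and (eventually_ge_atTop 10)).exists_forall_of_atTop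
    refine ⟨h, hh, T₀, fun T hT A hA => ?_⟩
    obtain ⟨h1, hT10⟩ := hT₀ T hT
    simp_rw [F_re hT10]
    exact h1 A hA

end Pool.Agent.Results.MP_00e05b_nt.DiscretePart
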