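import Pool.Agent.K3h84.PC.MB
import Pool.Agent.K3h10.MO.Main

/-!
# Montgomery's function: moments in windows anywhere on the line, and point masses

The strong pair correlation conjecture says that `F(α, T) = 1 + o(1)` for `1 ≤ α ≤ A`, so all moments of
`F` over a window in `[1, A]` are bounded.  At `α = 0` the function has a peak of height `log T` and width
`1 / log T`, and the `p`-th moment of the peak is `(1 / p) (log T) ^ (p - 1)`.  Under the Alternative
Hypothesis the peak is repeated at all even integers.  We show: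

* For every even integrable `ψ` with nonnegative cosine transform, every natural number `p`, `T ≥ 10` and
  real `x`: `∫ ψ(α - x) F(α, T) ^ p dα ≤ ∫ ψ(α) F(α, T) ^ p dα` (no hypothesis).
* Assume the Riemann hypothesis. For `p ≥ 2`, uniformly in all real `x`,
  `∫_{x-1}^{x+1} (1 - |α - x|) F(α, T) ^ p dα ≤ (1 / p + o(1)) (log T) ^ (p - 1)`, with equality for `x = 0`.
* Assume the Riemann hypothesis. The total mass of `F(α, T) dα` near the points of a set of real numbers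
  `θ`, anywhere on the line, with mutual distances between `ε` and `1 - ε`, is at most `1 + η`, uniformly,
  when the half width `h = h(ε, η)` is small and `T` is large.  More generally for any `N` real numbers
  `∑_j m_h(θ_j) ≤ 1 + η + (∑_{j ≠ k} m_{h'}(θ_j - θ_k)) ^ (1/2)`, for every `h' > 0` and some
  `h = h(N, η, h') > 0`.  Among any `2 / δ` points with masses at least `δ` there are two with mass at least
  `δ² / 5` at their difference, and the difference is not between `ε` and `1 - ε`.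

The third part is the theorem `PointMasses` of helper84, which this file replaces. The second part uses the
lower bound `F(0, T) ≥ (1 + o(1)) log T` proved in Lean by helper54.

Proof of the first part: `F(α, T)` is a sum of cosines in `α` with nonnegative coefficients, and so is
`F(α, T) ^ p`.  Second part: by the Harnack inequality `F(α) ≥ exp(-2 |α| log T) F(0)`, the values
`F(α) ≤ F(0) = (1 + o(1)) log T` and the mass `1 + o(1)` of `F` near `0` the function is close to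
`exp(-2 |α| log T) log T` in the mean near `0`, so its moments are as for this function; for
`ε ≤ |α| ≤ 1 - ε` it is `o(log T)`, and near `± 1` the weight is small.
-/

set_option autoImplicit false

open Filter MeasureTheory
open Complex (I)

namespace Pool.Agent.Results.MP_00e05b_nt.MomentsOfF

/-- the nontrivial zeros of `ζ` with ordinate in `(0, T]` -/
def zeros (T : ℝ) : Set ℂ :=
  {s : ℂ | 0 < s.re ∧ s.re < 1 ∧ 0 < s.im ∧ s.im ≤ T ∧ riemannZeta s = 0}

/-- the multiplicity of `s` as a zero of `ζ` -/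
noncomputable def mult (s : ℂ) : ℕ := analyticOrderNatAt riemannZeta s

/-- Montgomery's function `F(α, T)`:
`((T/2π) log T)⁻¹ ∑_γ ∑_γ' T ^ (iα(γ - γ')) w(γ - γ')`, `w(u) = 4 / (4 + u²)`, over the zeros with
ordinates in `(0, T]`, counted with multiplicity -/
noncomputable def F (α T : ℝ) : ℂ :=
  ((T / (2 * Real.pi) * Real.log T : ℝ) : ℂ)⁻¹ *
    ∑ᶠ s ∈ zeros T, ∑ᶠ s' ∈ zeros T, (mult s : ℂ) * (mult s' : ℂ) *
      ((T : ℂ) ^ (I * α * (s.im - s'.im)) * (4 / (4 + (s.im - s'.im) ^ 2)))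

/-- the mass of `F(α, T) dα` in `[θ - h, θ + h]` -/
noncomputable def m (h T θ : ℝ) : ℝ := ∫ α in (θ - h)..(θ + h), (F α T).re

/-- the `p`-th moment of `F` in the window of length two about `x`, with the Fejér weight -/
noncomputable def moment (p : ℕ) (T x : ℝ) : ℝ :=
  ∫ α in (x - 1)..(x + 1), (1 - |α - x|) * (F α T).re ^ p

open Pool.Agent.K3h84.PC Pool.Agent.Y749.Rig

lemma F_eq {T : ℝ} (hT : 10 ≤ T) (α : ℝ) : F α T = (Fr T α : ℂ) :=
  Pool.Agent.Y749.Rig.P.F_eq hT α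

lemma m_eq {T : ℝ} (hT : 10 ≤ T) (h θ : ℝ) : m h T θ = M h T θ := by
  unfold m M
  refine intervalIntegral.integral_congr fun α _ => ?_
  show (F α T).re = Fr T α
  rw [F_eq hT, Complex.ofReal_re]

lemma moment_eq {T : ℝ} (hT : 10 ≤ T) (p : ℕ) (x : ℝ) :
    moment p T x = ∫ α, tr 1 (α - x) * Fr T α ^ p := by
  unfold moment
  rw [intervalIntegral.integral_of_le (by linarith), ← integral_Icc_eq_integral_Ioc]
  have h1 : ∫ α in Set.Icc (x - 1) (x + 1), (1 - |α - x|) * (F α T).re ^ p =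
      ∫ α in Set.Icc (x - 1) (x + 1), tr 1 (α - x) * Fr T α ^ p := by
    refine setIntegral_congr_fun measurableSet_Icc fun α hα => ?_
    show (1 - |α - x|) * (F α T).re ^ p = tr 1 (α - x) * Fr T α ^ p
    rw [F_eq hT, Complex.ofReal_re, Pool.Agent.K3h10.MO.tr_one, max_eq_right]
    have : |α - x| ≤ 1 := abs_le.2 ⟨by linarith [hα.1], by linarith [hα.2]⟩
    linarith
  rw [h1]
  refine setIntegral_eq_integral_of_forall_compl_eq_zero fun α hα => ?_
  rw [tr_supp one_pos, zero_mul]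
  by_contra h
  apply hα
  have h2 := abs_lt.1 (not_le.1 h)
  exact ⟨by linarith [h2.1], by linarith [h2.2]⟩

/-- **Moments and point masses of Montgomery's function.** -/
theorem result :
    (∀ T : ℝ, 10 ≤ T → (∀ α : ℝ, (F α T).im = 0 ∧ 0 ≤ (F α T).re) ∧
      ∀ (p : ℕ) (ψ : ℝ → ℝ), Integrable ψ → (∀ α, ψ (-α) = ψ α) →
        (∀ t : ℝ, 0 ≤ ∫ α, ψ α * Real.cos (α * t)) → ∀ x : ℝ,
          ∫ α, ψ (α - x) * (F α T).re ^ p ≤ ∫ α, ψ α * (F α T).re ^ p) ∧
    (RiemannHypothesis →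
      (∀ p : ℕ, 2 ≤ p → ∀ e : ℝ, 0 < e → ∃ T₀ : ℝ, ∀ T : ℝ, T₀ ≤ T →
        (∀ x : ℝ, moment p T x ≤ (1 / p + e) * Real.log T ^ (p - 1)) ∧
        (1 / p - e) * Real.log T ^ (p - 1) ≤ moment p T 0) ∧
      (∀ (N : ℕ) (η h' : ℝ), 0 < η → 0 < h' → ∃ h : ℝ, 0 < h ∧ ∃ T₀ : ℝ, ∀ T : ℝ, T₀ ≤ T →
        ∀ A : Finset ℝ, A.card ≤ N →
          ∑ θ ∈ A, m h T θ ≤ 1 + η + Real.sqrt (∑ p ∈ A.offDiag, m h' T (p.1 - p.2))) ∧
      (∀ ε η : ℝ, 0 < ε → 0 < η → ∃ h : ℝ, 0 < h ∧ ∃ T₀ : ℝ, ∀ T : ℝ, T₀ ≤ T → ∀ A : Finset ℝ,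
        (∀ α ∈ A, ∀ β ∈ A, α ≠ β → ε ≤ |α - β| ∧ |α - β| ≤ 1 - ε) → ∑ θ ∈ A, m h T θ ≤ 1 + η) ∧
      (∀ ε δ h' : ℝ, 0 < ε → 0 < δ → 0 < h' → ∃ h : ℝ, 0 < h ∧ ∃ T₀ : ℝ, ∀ T : ℝ, T₀ ≤ T →
        ∀ A : Finset ℝ, 2 / δ ≤ (A.card : ℝ) → (∀ θ ∈ A, δ ≤ m h T θ) →
          ∃ α ∈ A, ∃ β ∈ A, α ≠ β ∧ δ ^ 2 / 5 ≤ m h' T (α - β) ∧
            (|α - β| < ε ∨ 1 - ε < |α - β|))) := by
  refine ⟨fun T hT => ⟨fun α => ?_, fun p ψ hi he h0 x => ?_⟩, fun hRH =>
    ⟨fun p hp e he => ?_, fun N η h' hη hh' => ?_, fun ε η hε hη => ?_, fun ε δ h' hε hδ hh' => ?_⟩⟩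
  · rw [F_eq hT, Complex.ofReal_im, Complex.ofReal_re]
    exact ⟨rfl, Fr_nonneg hT α⟩
  · have h := Pool.Agent.K3h10.MO.PD.shift ((Pool.Agent.K3h10.MO.Fr_PD hT).pow p) hi he h0 x
    have e1 : ∀ α, (F α T).re = Fr T α := fun α => by rw [F_eq hT, Complex.ofReal_re]
    simp_rw [e1]
    exact h
  · obtain ⟨T₀, hT₀⟩ := ((Pool.Agent.K3h10.MO.moments hRH p hp he).and
      (eventually_ge_atTop 10)).exists_forall_of_atTop
    refine ⟨T₀, fun T hT => ?_⟩
    obtain ⟨⟨h1, h2⟩, hT10⟩ := hT₀ T hT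
    refine ⟨fun x => ?_, ?_⟩
    · rw [moment_eq hT10]
      exact h1 x
    · rw [moment_eq hT10]
      simp only [sub_zero]
      exact h2
  · obtain ⟨h, hh, -, hev⟩ := mass_main hRH N hη hh'
    obtain ⟨T₀, hT₀⟩ := (hev.and (eventually_ge_atTop 10)).exists_forall_of_atTop
    refine ⟨h, hh, T₀, fun T hT A hA => ?_⟩
    obtain ⟨h1, hT10⟩ := hT₀ T hT
    simp_rw [m_eq hT10]
    exact h1 A hA
  · obtain ⟨h, hh, hev⟩ := mass_sep hRH hε hη
    obtain ⟨T₀, hT₀⟩ := (hev.and (eventually_ge_atTop 10)).exists_forall_of_atTop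
    refine ⟨h, hh, T₀, fun T hT A hA => ?_⟩
    obtain ⟨h1, hT10⟩ := hT₀ T hT
    simp_rw [m_eq hT10]
    exact h1 A hA
  · obtain ⟨h, hh, hev⟩ := mass_struct hRH hε hδ hh'
    obtain ⟨T₀, hT₀⟩ := (hev.and (eventually_ge_atTop 10)).exists_forall_of_atTop
    refine ⟨h, hh, T₀, fun T hT A hA1 hA2 => ?_⟩
    obtain ⟨h1, hT10⟩ := hT₀ T hT
    simp_rw [m_eq hT10] at hA2 ⊢
    exact h1 A hA1 hA2

end Pool.Agent.Results.MP_00e05b_nt.MomentsOfF
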