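import Pool.Agent.K3h31.PC.Box

/-!
# The strong pair correlation conjecture from one good point in every small box

The strong pair correlation conjecture (Q1) says that, on the Riemann hypothesis,
`F(α, T) → 1` as `T → ∞`, uniformly for `1 ≤ α ≤ A`, for Montgomery's function `F`. In the
coordinates `t` and `x = t ^ α` we show, without any hypothesis, that this holds as soon as every
box `[T, (1 + ε) T] × [X, (1 + ε) X]` with `(1 + ε) T ≤ X ≤ T ^ A` contains one point `(t, x)` at
which `|F - 1| ≤ ε`. So the exceptional set of the conjecture, if it is not empty for large `T`,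
contains whole boxes of this form: the asymptotic formula on average over such boxes, or for almost
all `t` and almost all `x`, implies the uniform pointwise asymptotic formula.

Proof.  Let `q(T, x)` be the sum over the pairs of zeros up to `T`, without the normalising factor.

1. `q(T, x') ≥ e ^ (-2 |log x' - log x|) q(T, x)` (the Harnack inequality of the files `K3h84.PC`:
   the weight `4 / (4 + u ^ 2)` is the Fourier transform of `e ^ (-2 |y|)`).
2. `q(T', x) ≥ q(T, x) - O(T' ^ (4/5) (log T') ^ 2)` for `T ≤ T'`: the form `q` is positive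
   semidefinite on the vectors indexed by the zeros, and the zeros up to `T` and those between `T`
   and `T'` are nearly orthogonal, by the bound `O(log T)` for the number of zeros in intervals of
   length one.

helper31; built on the starting library (`Y749.Rig` and the files imported there) and on helper84's
files `K3h84.PC`.
-/

set_option autoImplicit false

open Complex (I)

namespace Pool.Agent.Results.MP_00e05b_nt.SmallBoxes

/-- the nontrivial zeros of `ζ` with ordinate in `(0, T]` -/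
def zeros (T : ℝ) : Set ℂ :=
  {s : ℂ | 0 < s.re ∧ s.re < 1 ∧ 0 < s.im ∧ s.im ≤ T ∧ riemannZeta s = 0}

/-- the multiplicity of `s` as a zero of `ζ` -/
noncomputable def mult (s : ℂ) : ℕ := analyticOrderNatAt riemannZeta s

/-- Montgomery's function `F(α, T)`:
`((T/2π) log T)⁻¹ ∑_γ ∑_γ' T ^ (iα(γ - γ')) w(γ - γ')`, `w(u) = 4 / (4 + u²)`, over the zeros with
ordinates in `(0, T]`, counted with multiplicity -/
noncomputable def F (α T : ℝ) : ℂ :=
  ((T / (2 * Real.pi) * Real.log T : ℝ) : ℂ)⁻¹ *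
    ∑ᶠ s ∈ zeros T, ∑ᶠ s' ∈ zeros T, (mult s : ℂ) * (mult s' : ℂ) *
      ((T : ℂ) ^ (I * α * (s.im - s'.im)) * (4 / (4 + (s.im - s'.im) ^ 2)))

/-- The assertion of Q1: `F(α, T) = 1 + o(1)` uniformly for `1 ≤ α ≤ A`, for every `A > 1`. -/
def StrongPairCorrelation : Prop := ∀ A : ℝ, 1 < A → ∀ ε : ℝ, 0 < ε → ∃ T₀ : ℝ, ∀ T : ℝ, T₀ ≤ T →
  ∀ α : ℝ, 1 ≤ α → α ≤ A → ‖F α T - 1‖ ≤ ε

/-- For all `A > 1` and `ε > 0` every box `[T, (1 + ε) T] × [X, (1 + ε) X]` with
`(1 + ε) T ≤ X ≤ T ^ A` and large `T` contains a point `(t, x)` at which `|F(log x / log t, t) - 1|`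
is at most `ε`. -/
def GoodPointInEveryBox : Prop := ∀ A : ℝ, 1 < A → ∀ ε : ℝ, 0 < ε → ∃ T₀ : ℝ, ∀ T : ℝ, T₀ ≤ T →
  ∀ X : ℝ, (1 + ε) * T ≤ X → X ≤ T ^ A → ∃ t ∈ Set.Icc T ((1 + ε) * T),
    ∃ x ∈ Set.Icc X ((1 + ε) * X), ‖F (Real.log x / Real.log t) t - 1‖ ≤ ε

open Pool.Agent.K3h31.PC Pool.Agent.Y749.Rig

lemma F_eq {T : ℝ} (hT : 10 ≤ T) (α : ℝ) : F α T = (Fr T α : ℂ) := by
  have h := Pool.Agent.Y749.Rig.P.F_eq hT α
  exact h

lemma norm_eq {T : ℝ} (hT : 10 ≤ T) (α : ℝ) : ‖F α T - 1‖ = |Fr T α - 1| := by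
  rw [F_eq hT, ← Complex.ofReal_one, ← Complex.ofReal_sub, Complex.norm_real, Real.norm_eq_abs]

/-- **The strong pair correlation conjecture from one good point in every small box.**
(1) There is `C` such that for `10 ≤ T ≤ T'` and all real `α`, `α'`, with `x = T ^ α` and
`x' = T' ^ α'`, the values of Montgomery's function are real and
`T (log T) e ^ (-2 |log x' - log x|) F(α, T) ≤ T' (log T') F(α', T') + C T' ^ (4/5) (log T') ^ 2`.
(2) The assertion of Q1 is equivalent to the existence of one good point in every small box. -/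
theorem result :
    (∃ C : ℝ, ∀ T T' : ℝ, 10 ≤ T → T ≤ T' → ∀ α α' : ℝ, (F α T).im = 0 ∧ 0 ≤ (F α T).re ∧
      T * Real.log T * (Real.exp (-(2 * |α' * Real.log T' - α * Real.log T|)) * (F α T).re) ≤
        T' * Real.log T' * (F α' T').re + C * T' ^ (4 / 5 : ℝ) * Real.log T' ^ 2) ∧
    (StrongPairCorrelation ↔ GoodPointInEveryBox) := by
  refine ⟨?_, fun h A hA ε hε => ?_, fun h A hA ε hε => ?_⟩
  · obtain ⟨C, -, h⟩ := incr
    refine ⟨2 * Real.pi * C, fun T T' hT hTT α α' => ?_⟩
    have hT' : 10 ≤ T' := hT.trans hTT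
    rw [F_eq hT, F_eq hT', Complex.ofReal_im, Complex.ofReal_re, Complex.ofReal_re]
    refine ⟨rfl, Fr_nonneg hT α, ?_⟩
    have h1 := h T T' hT hTT α α'
    have hpi := Real.pi_pos
    have e : ∀ t : ℝ, t * Real.log t = 2 * Real.pi * nT t := by
      intro t
      unfold nT
      field_simp
    rw [e T, e T']
    calc 2 * Real.pi * nT T *
          (Real.exp (-(2 * |α' * Real.log T' - α * Real.log T|)) * Fr T α)
        = 2 * Real.pi * (nT T *
          (Real.exp (-(2 * |α' * Real.log T' - α * Real.log T|)) * Fr T α)) := by ring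
      _ ≤ 2 * Real.pi * (nT T' * Fr T' α' + C * T' ^ (4 / 5 : ℝ) * Real.log T' ^ 2) :=
          mul_le_mul_of_nonneg_left h1 (by positivity)
      _ = _ := by ring
  · obtain ⟨T₀, hT₀⟩ := h A hA ε hε
    refine ⟨max T₀ 10, fun T hT X hX1 hX2 => ⟨T, ⟨le_rfl, ?_⟩, X, ⟨le_rfl, ?_⟩, ?_⟩⟩
    · have : 10 ≤ T := (le_max_right _ _).trans hT
      nlinarith
    · have h10 : 10 ≤ T := (le_max_right _ _).trans hT
      have hX0 : 0 ≤ X := le_trans (by positivity) hX1
      nlinarith [mul_nonneg hε.le hX0]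
    · have hT10 : 10 ≤ T := (le_max_right _ _).trans hT
      have hT0 : 0 < T := by linarith
      have hL : 0 < Real.log T := Real.log_pos (by linarith)
      have hTX : T ≤ X := by nlinarith
      refine hT₀ T ((le_max_left _ _).trans hT) _ ?_ ?_
      · rw [le_div_iff₀ hL, one_mul]
        exact Real.log_le_log hT0 hTX
      · rw [div_le_iff₀ hL, ← Real.log_rpow hT0]
        exact Real.log_le_log (by linarith) hX2
  · have hb : Boxes := by
      intro A' hA' ε' hε'
      obtain ⟨T₀, hT₀⟩ := h A' hA' ε' hε'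
      refine ⟨max T₀ 10, fun T hT X hX1 hX2 => ?_⟩
      obtain ⟨t, ht, x, hx, hF⟩ := hT₀ T ((le_max_left _ _).trans hT) X hX1 hX2
      refine ⟨t, x, ht.1, ht.2, hx.1, hx.2, ?_⟩
      rwa [norm_eq (((le_max_right _ _).trans hT).trans ht.1)] at hF
    obtain ⟨T₀, hT₀⟩ := of_boxes hb hA hε
    refine ⟨max T₀ 10, fun T hT α h1 h2 => ?_⟩
    rw [norm_eq ((le_max_right _ _).trans hT)]
    exact hT₀ T ((le_max_left _ _).trans hT) α h1 h2

end Pool.Agent.Results.MP_00e05b_nt.SmallBoxes
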